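import Pool.Agent.helper50.NPT.Spec1

set_option autoImplicit false

namespace NPT

open scoped Classical
open AN

noncomputable section

theorem WSR_rg (p : ℕ) [Fact p.Prime] (B : Type) [CommRing B] (S : Subring B) (X : WittVector p B) :
    X ∈ (WittVector.map (p := p) S.subtype).range ↔ ∀ n, X.coeff n ∈ S := by
  constructor
  · rintro ⟨Y, rfl⟩ n
    rw [WittVector.map_coeff]
    exact (Y.coeff n).2
  · intro h
    refine ⟨WittVector.mk p fun n => (⟨X.coeff n, h n⟩ : S), ?_⟩
    ext n
    rw [WittVector.map_coeff, WittVector.coeff_mk]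
    rfl

theorem WSR_cl (p : ℕ) [Fact p.Prime] (B : Type) [CommRing B] (S : Subring B) (X : WittVector p B) :
    X ∈ Wc p (S : Set B) ↔ ∀ n, X.coeff n ∈ S := by
  have h1 : {X : WittVector p B | ∀ n, X.coeff n ∈ (S : Set B)} = (((WittVector.map (p := p) S.subtype).range.toAddSubgroup : AddSubgroup (WittVector p B)) : Set (WittVector p B)) := by
    ext Y
    exact (WSR_rg p B S Y).symm
  unfold Wc
  rw [h1, AddSubgroup.closure_eq]
  exact WSR_rg p B S X

theorem WSR : WSR_stmt := by
  intro p _ B _ S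
  refine ⟨WSR_cl p B S, ?_, ?_, ?_, ?_⟩
  · intro X hX Y hY
    rw [WSR_cl] at hX hY ⊢
    rw [← WSR_rg] at hX hY ⊢
    exact mul_mem hX hY
  · intro X hX
    rw [WSR_cl] at hX ⊢
    rw [← WSR_rg] at hX ⊢
    obtain ⟨Y, rfl⟩ := hX
    refine ⟨WittVector.frobenius Y, ?_⟩
    exact (WittVector.frobenius_isPoly p).map S.subtype Y
  · intro X hX
    rw [WSR_cl] at hX ⊢
    intro n
    cases n with
    | zero => rw [WittVector.verschiebung_coeff_zero]; exact S.zero_mem
    | succ n => rw [WittVector.verschiebung_coeff_add_one]; exact hX n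
  · intro x hx
    rw [WSR_cl]
    intro n
    rcases Nat.eq_zero_or_pos n with h | h
    · rw [h, WittVector.teichmuller_coeff_zero]; exact hx
    · rw [WittVector.teichmuller_coeff_pos p x n h]; exact S.zero_mem

end

end NPT
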