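import Pool.Agent.helper50.NPT.Spec1

set_option autoImplicit false

namespace NPT

open scoped Classical
open AN

noncomputable section

theorem ZWR_n1 (p j N : ℕ) (hp : p.Prime) (hj : j < p - 1) (hN : N = p.choose (1 + j) / p) :
    N * (1 + j) = (p - 1).choose j ∧ N * (p - (1 + j)) = (p - 1).choose (j + 1) := by
  have h0 : 0 < p := hp.pos
  have hd : p ∣ p.choose (1 + j) := hp.dvd_choose_self (by omega) (by omega)
  have h1 : p.choose (1 + j) = p * N := by rw [hN]; exact (Nat.mul_div_cancel' hd).symm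
  obtain ⟨n, rfl⟩ : ∃ n, p = n + 1 := ⟨p - 1, by omega⟩
  have h2 := Nat.add_one_mul_choose_eq n j
  have h3 := Nat.choose_mul_succ_eq n (j + 1)
  rw [Nat.add_comm 1 j] at h1 ⊢
  rw [h1] at h2 h3
  rw [Nat.add_sub_cancel]
  constructor
  · apply Nat.eq_of_mul_eq_mul_left h0
    rw [h2]
    ring
  · apply Nat.eq_of_mul_eq_mul_left h0
    rw [Nat.mul_comm (n + 1) (n.choose (j + 1)), h3]
    ring

theorem ZWR_dd (p : ℕ) (hp : p.Prime) {R : Type} [CommRing R] (x y : LS R) (h : dd y = -dd x) :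
    dd (P2 p x y) = (y ^ (p - 1) - x ^ (p - 1)) * dd x := by
  unfold P2
  rw [map_sum, Finset.sum_Ico_eq_sum_range]
  have key : ∀ j ∈ Finset.range (p - 1), dd (((p.choose (1 + j) / p : ℕ) : LS R) * (x ^ (1 + j) * y ^ (p - (1 + j)))) =
      ((((p - 1).choose j : ℕ) : LS R) * (x ^ j * y ^ (p - 1 - j)) - (((p - 1).choose (j + 1) : ℕ) : LS R) * (x ^ (j + 1) * y ^ (p - 1 - (j + 1)))) * dd x := by
    intro j hj
    have hj' : j < p - 1 := Finset.mem_range.mp hj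
    obtain ⟨N, hN⟩ : ∃ N, N = p.choose (1 + j) / p := ⟨_, rfl⟩
    obtain ⟨e1, e2⟩ := ZWR_n1 p j N hp hj' hN
    obtain ⟨m, hm⟩ : ∃ m, p - (1 + j) = m + 1 := ⟨p - (1 + j) - 1, by omega⟩
    have hm1 : p - 1 - j = m + 1 := by omega
    have hm2 : p - 1 - (j + 1) = m := by omega
    rw [← hN, hm1, hm2, ← e1, ← e2, hm, ← nsmul_eq_mul, map_nsmul, dd_mul, dd_pow, dd_pow, h, nsmul_eq_mul]
    rw [Nat.add_comm 1 j, Nat.add_sub_cancel, Nat.add_sub_cancel]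
    push_cast
    ring
  rw [Finset.sum_congr rfl key, ← Finset.sum_mul, Finset.sum_range_sub' (fun j => (((p - 1).choose j : ℕ) : LS R) * (x ^ j * y ^ (p - 1 - j)))]
  simp

theorem ZWR (h1 : KB_stmt) (h2 : CB_stmt) (h3 : CC_stmt) : ZWR_stmt := by
  intro p _ R _ _ g γ a hK f₀ g₀ o₀ φ a₁ o₁ hg ho ha ho1 hf hfφ hφ
  have hp : p.Prime := Fact.out
  obtain ⟨-, -, -, -, hres, -, -, -⟩ := h1 R g γ a hK
  have hc : dd (g₀ + o₀) = 0 := by
    rw [← hf]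
    exact dd_pow_char p f₀ p dvd_rfl
  have hdo : dd o₀ = -dd g₀ := by
    rw [map_add] at hc
    exact (neg_eq_of_add_eq_zero_right hc).symm
  have hdg : dd g₀ ∈ PS R := by
    have : dd g₀ = -dd o₀ := by rw [hdo, neg_neg]
    rw [this]
    exact (PS R).neg_mem (dd_mem_PS ho)
  have r1 : res (f₀ * dd g₀) = 0 := by
    have e1 : f₀ * dd g₀ = dd (φ * g₀) + a₁ * dd g₀ + o₁ * dd g₀ := by
      rw [dd_mul, hφ, hfφ]
      ring
    rw [e1, res_add, res_add, res_dd, hres a₁ ha g₀ hg, res_PS (PS_mul ho1 hdg), add_zero, add_zero]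
  refine ⟨r1, ?_⟩
  have hz := ZWR_dd p hp g₀ o₀ hdo
  have e2 : P2 p g₀ o₀ * dd g₀ = dd (P2 p g₀ o₀ * g₀) - dd (P2 p g₀ o₀) * g₀ := by
    rw [dd_mul]
    ring
  obtain ⟨y, hy⟩ := h2 p R o₀
  have r2 : res (f₀ ^ p * (o₀ ^ (p - 1) * dd o₀)) = 0 := by
    rw [h3 p R f₀ (dd o₀) _ y hy]
    have : f₀ * dd o₀ = -(f₀ * dd g₀) := by rw [hdo, mul_neg]
    rw [this]
    have : res (-(f₀ * dd g₀)) = 0 := by
      have : res (-(f₀ * dd g₀)) = -res (f₀ * dd g₀) := cf_neg _ _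
      rw [this, r1, neg_zero]
    rw [this]
    exact zero_pow hp.ne_zero
  obtain ⟨n, hn⟩ : ∃ n, p = n + 1 := ⟨p - 1, by have := hp.pos; omega⟩
  have hgp : g₀ ^ p = g₀ ^ (p - 1) * g₀ := by rw [hn, Nat.add_sub_cancel, pow_succ]
  have hop : o₀ ^ p = o₀ ^ (p - 1) * o₀ := by rw [hn, Nat.add_sub_cancel, pow_succ]
  have r3 : dd (g₀ ^ p * g₀) = g₀ ^ p * dd g₀ := by
    rw [dd_mul, dd_pow_char p g₀ p dvd_rfl, zero_mul, zero_add]
  have hop' : o₀ ^ p ∈ PS R := by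
    have : ∀ m : ℕ, o₀ ^ m ∈ PS R := by
      intro m
      induction m with
      | zero => rw [pow_zero]; exact one_mem_PS
      | succ m ih => rw [pow_succ]; exact PS_mul ih ho
    exact this p
  have r4 : res (o₀ ^ p * dd o₀) = 0 := res_PS (PS_mul hop' (dd_mem_PS ho))
  have e3 : dd (P2 p g₀ o₀) * g₀ = o₀ ^ p * dd o₀ - f₀ ^ p * (o₀ ^ (p - 1) * dd o₀) - g₀ ^ p * dd g₀ := by
    rw [hz, hf, hdo, hgp, hop]
    ring
  rw [e2, e3, res_sub, res_dd, res_sub, res_sub, r2, r4, ← r3, res_dd]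
  simp

end

end NPT
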